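import Pool.Agent.H986R3.SOBMain

set_option autoImplicit false

/-!
There is a `Pi^1_1`-sound, `Pi^1_1`-definable extension of `Sigma^1_1-AC_0` that proves its own
`Pi^1_1`-soundness. All definitions (language, structures, provability, `Sigma^1_1-AC_0`, Goedel
numbering, arithmetizations, the reflection sentence) are in `Pool/Agent/H986R3/SOBDefs.lean`; the
Goedel numbering is onto by `Fm.code_surj`.

Idea of the proof (after Feferman's non-standard definitions of theories). Let `T` consist of the
axioms of full second-order arithmetic with choice and two true sentences: `F1`, each proof has a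
largest non-logical axiom or none, and `F2`, all `Pi^1_1` sentences with a proof without
non-logical axioms are true. Let the arithmetical formula `τ₀` define `T`, and let `τ(a)` say:
`τ₀(a)`, and each `Pi^1_1` sentence that has a proof from axioms `≤ a` satisfying `τ₀` is true. With
the `Pi^1_1` truth predicate this is a `Pi^1_1` formula. It defines `T` in the standard model since
all members of `T` are true. And `T` proves the `Pi^1_1`-soundness of `τ`: given a proof of `φ` all
of whose axioms satisfy `τ`, its largest axiom `a` satisfies `τ`, and by definition of `τ(a)` the
sentence `φ` is true.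
-/

namespace Pool.Agent.Results.MP_51f008_lc.OwnSoundness

open Pool.Agent.H986R3.SOB

/-- For every arithmetization of the metamathematics of `L_2`: there is a theory that extends
`Sigma^1_1-AC_0`, is `Pi^1_1`-sound and `Pi^1_1`-definable, and proves its own
`Pi^1_1`-soundness. -/
theorem result (𝒜 : Arithmetization) :
    ∃ T : Set Fm, ExtendsSigma11AC T ∧ Pi11Sound T ∧ ProvesOwnSoundness 𝒜 T :=
  ⟨theT 𝒜, theT_ext 𝒜, fun _ _ h => theT_sound 𝒜 h, theT_own 𝒜⟩

end Pool.Agent.Results.MP_51f008_lc.OwnSoundness
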